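import Pool.Agent.H288R3.QM.Functional

/-!
There is a quasi-minimal enumeration degree that is not quasi-minimal with respect to the space of
the continuous functionals on Baire space.
-/

namespace Pool.Agent.Results.MP_9a65c4_lc.QuasiMinimal

open Encodable

/-- The initial segment `(g 0, ..., g (k - 1))` of `g`. -/
def initSeg (g : ℕ → ℕ) (k : ℕ) : List ℕ := (List.range k).map g

/-- A represented space: a set `X` with a partial surjection from Baire space onto `X`, given by
its graph (`Name p x` means that `p` is a name of `x`). -/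
structure RepSpace (X : Type) where
  Name : (ℕ → ℕ) → X → Prop
  unique : ∀ p x y, Name p x → Name p y → x = y
  surj : ∀ x, ∃ p, Name p x

/-- A partial function on Baire space is computable: there is a c.e. relation `W` between finite
sequences, arguments and values such that, for all `p` in the domain of `F` with `F p = q`,
`q n = m` iff `W` holds of some initial segment of `p`, of `n` and of `m`. -/
def PartialComputable (F : (ℕ → ℕ) →. (ℕ → ℕ)) : Prop :=
  ∃ W : List ℕ × (ℕ × ℕ) → Prop, REPred W ∧
    ∀ p, ∀ q ∈ F p, ∀ n m, q n = m ↔ ∃ k, W (initSeg p k, (n, m))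

/-- `y ≤_T x`: some partial computable function maps every name of `x` to a name of `y`. -/
def LeT {X Y : Type} (δX : RepSpace X) (δY : RepSpace Y) (y : Y) (x : X) : Prop :=
  ∃ F : (ℕ → ℕ) →. (ℕ → ℕ), PartialComputable F ∧
    ∀ p, δX.Name p x → ∃ q ∈ F p, δY.Name q y

/-- The point `x` is computable: it has a computable name. -/
def IsComputablePoint {X : Type} (δX : RepSpace X) (x : X) : Prop :=
  ∃ p : ℕ → ℕ, Computable p ∧ δX.Name p x

/-- The space of all sets of natural numbers: `p` is a name of `{k | ∃ n, p n = k + 1}`. -/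
def enumSpace : RepSpace (Set ℕ) where
  Name p A := A = {k | ∃ n, p n = k + 1}
  unique p A B hA hB := hA.trans hB.symm
  surj A := by
    classical
    refine ⟨fun n => if n ∈ A then n + 1 else 0, ?_⟩
    ext k
    constructor
    · intro hk
      exact ⟨k, if_pos hk⟩
    · rintro ⟨n, hn⟩
      dsimp only at hn
      split_ifs at hn with h
      have : n = k := by omega
      rwa [← this]

/-- Baire space, with the identity representation. -/
def baire : RepSpace (ℕ → ℕ) where
  Name p x := p = x
  unique _ _ _ hx hy := hx.symm.trans hy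
  surj x := ⟨x, rfl⟩

/-- `α` is a Kleene associate of `Φ`: for every `g`, the first nonzero value of `α` on the (codes of
the) initial segments of `g` exists and is `Φ g + 1`. -/
def IsAssociate (α : ℕ → ℕ) (Φ : (ℕ → ℕ) → ℕ) : Prop :=
  ∀ g : ℕ → ℕ, ∃ k, α (encode (initSeg g k)) = Φ g + 1 ∧ ∀ j < k, α (encode (initSeg g j)) = 0

theorem initSeg_eq (g : ℕ → ℕ) (k : ℕ) : initSeg g k = Pool.Agent.H288R3.QM.seg g k := rfl

open Pool.Agent.H288R3.QM Pool.Agent.Helper446 Pool.Agent.Helper446.RE
  Pool.Agent.Helper446.CB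

theorem exists_associate (Φ : C(ℕ → ℕ, ℕ)) : ∃ α, IsAssociate α Φ := by
  classical
  let P : List ℕ → ℕ → Prop := fun σ v => ∀ g : ℕ → ℕ, initSeg g σ.length = σ → Φ g = v
  have hex : ∀ g : ℕ → ℕ, ∃ k, ∃ v, P (initSeg g k) v := by
    intro g
    have h1 : {h : ℕ → ℕ | Φ h = Φ g} ∈ nhds g :=
      Φ.continuous.continuousAt.preimage_mem_nhds (show {x | x = Φ g} ∈ nhds (Φ g) from
        (isOpen_discrete _).mem_nhds rfl)
    rw [nhds_pi, Filter.mem_pi] at h1
    obtain ⟨I, hI, t, ht, hsub⟩ := h1
    obtain ⟨N, hN⟩ := hI.bddAbove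
    refine ⟨N + 1, Φ g, fun h hh => hsub ?_⟩
    intro i hi
    have hlen : (initSeg g (N + 1)).length = N + 1 := seg_length g (N + 1)
    rw [hlen] at hh
    have h2 : i < N + 1 := Nat.lt_succ_of_le (hN hi)
    have h3 : h i = g i := by
      rw [← ext_seg h h2, ← ext_seg g h2]
      rw [show seg h (N + 1) = seg g (N + 1) from hh]
    rw [h3]
    exact mem_of_mem_nhds (ht i)
  let α : ℕ → ℕ := fun n => match (decode (α := List ℕ) n) with
    | none => 0
    | some σ => if h : ∃ v, P σ v then h.choose + 1 else 0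
  have hα : ∀ σ : List ℕ, α (encode σ) = if h : ∃ v, P σ v then h.choose + 1 else 0 := by
    intro σ
    simp only [α, encodek]
  refine ⟨α, fun g => ?_⟩
  refine ⟨Nat.find (hex g), ?_, fun j hj => ?_⟩
  · have h := Nat.find_spec (hex g)
    rw [hα, dif_pos h]
    have h2 := h.choose_spec g (congrArg (initSeg g) (seg_length g _))
    rw [h2]
  · rw [hα, dif_neg (Nat.find_min (hex g) hj)]

/-- The space of the continuous functionals from Baire space to the natural numbers, represented by
the Kleene associates. -/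
def functionals : RepSpace C(ℕ → ℕ, ℕ) where
  Name α Φ := IsAssociate α Φ
  unique α Φ Ψ h1 h2 := by
    ext g
    obtain ⟨k, hk1, hk2⟩ := h1 g
    obtain ⟨l, hl1, hl2⟩ := h2 g
    rcases lt_trichotomy k l with h | h | h
    · have := hl2 k h
      omega
    · subst h
      omega
    · have := hk2 l h
      omega
  surj Φ := exists_associate Φ

/-- The enumeration degree of `A` is quasi-minimal with respect to the represented space `Y`: `A` is
not a computable point of the space of sets (that is, `A` is not c.e.) and every point of `Y` below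
`A` is computable. -/
def QuasiMinimalFor {Y : Type} (δY : RepSpace Y) (A : Set ℕ) : Prop :=
  ¬ IsComputablePoint enumSpace A ∧ ∀ y, LeT enumSpace δY y A → IsComputablePoint δY y

/-! ### The set -/

/-- The set of the codes of the nodes of the bar. -/
noncomputable def AA : Set ℕ := encode '' VV

theorem mem_AA {σ : List ℕ} : encode σ ∈ AA ↔ σ ∈ VV := by
  constructor
  · rintro ⟨τ, hτ, h⟩
    rwa [← encode_injective h]
  · intro h; exact ⟨σ, h, rfl⟩

theorem not_ce : ¬ IsComputablePoint enumSpace AA := by
  rintro ⟨p, hp, hA⟩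
  have hA' : AA = {k | ∃ n, p n = k + 1} := hA
  have hV : REPred fun σ : List ℕ => σ ∈ VV := by
    have h1 : REPred fun σ : List ℕ => ∃ n, p n = encode σ + 1 := by
      refine RE.exN (p := fun (σ : List ℕ) n => p n = encode σ + 1) (RE.eq ?_ (by fun_prop))
      exact hp.comp Computable.snd
    refine h1.of_eq fun σ => ?_
    rw [← mem_AA, hA']
    rfl
  obtain ⟨τ, h1, h2⟩ := bar_meets hV VV_bar
  exact VV_disj τ h1 h2

theorem functions_computable (f : ℕ → ℕ) (hf : LeT enumSpace baire f AA) : Computable f := by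
  obtain ⟨F, ⟨W, hW, hF⟩, hname⟩ := hf
  let Θ : ℕ × (ℕ × List (List ℕ)) → Prop := fun x => ∃ τ : List ℕ, W (τ, (x.1, x.2.1)) ∧
    ∀ a ∈ τ, a = 0 ∨ ∃ σ ∈ x.2.2, a = encode σ + 1
  have hΘ : REPred Θ := by
    refine RE.ex (p := fun (x : ℕ × (ℕ × List (List ℕ))) (τ : List ℕ) => W (τ, (x.1, x.2.1)) ∧
      ∀ a ∈ τ, a = 0 ∨ ∃ σ ∈ x.2.2, a = encode σ + 1) (RE.and ?_ ?_)
    · exact RE.comp hW (f := fun y : (ℕ × (ℕ × List (List ℕ))) × List ℕ =>
        (y.2, (y.1.1, y.1.2.1))) (by fun_prop)
    · refine RE.all_mem (p := fun (y : (ℕ × (ℕ × List (List ℕ))) × List ℕ) (a : ℕ) =>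
        a = 0 ∨ ∃ σ ∈ y.1.2.2, a = encode σ + 1) ?_ (l := fun y => y.2) (by fun_prop)
      refine RE.or (RE.eq (by fun_prop) (by fun_prop)) ?_
      exact RE.ex_mem (p := fun (z : ((ℕ × (ℕ × List (List ℕ))) × List ℕ) × ℕ) (σ : List ℕ) =>
        z.2 = encode σ + 1) (RE.eq (by fun_prop) (by fun_prop)) (l := fun z => z.1.1.2.2)
        (by fun_prop)
  refine VV_functions hΘ (f := f) fun n v => ?_
  constructor
  · intro hfn
    obtain ⟨p, hp⟩ := enumSpace.surj AA
    obtain ⟨q, hq, hqf⟩ := hname p hp
    have hqf' : q = f := hqf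
    subst hqf'
    obtain ⟨k, hk⟩ := (hF p q hq n v).1 hfn
    refine ⟨(initSeg p k).filterMap fun a => if a = 0 then none else decode (a - 1), ?_, ?_⟩
    · refine ⟨initSeg p k, hk, fun a ha => ?_⟩
      rcases Nat.eq_zero_or_pos a with h0 | h0
      · exact Or.inl h0
      · right
        have ha' : a - 1 ∈ AA := by
          rw [show AA = {k | ∃ n, p n = k + 1} from hp]
          obtain ⟨i, -, rfl⟩ := List.mem_map.1 ha
          exact ⟨i, by omega⟩
        obtain ⟨σ, hσ, hσ2⟩ := ha'
        refine ⟨σ, ?_, by omega⟩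
        rw [List.mem_filterMap]
        refine ⟨a, ha, ?_⟩
        rw [if_neg (by omega), ← hσ2, encodek]
    · intro τ hτ
      rw [List.mem_filterMap] at hτ
      obtain ⟨a, ha, h2⟩ := hτ
      split_ifs at h2 with h0
      have ha' : a - 1 ∈ AA := by
        rw [show AA = {k | ∃ n, p n = k + 1} from hp]
        obtain ⟨i, -, rfl⟩ := List.mem_map.1 ha
        exact ⟨i, by omega⟩
      obtain ⟨σ, hσ, hσ2⟩ := ha'
      rw [← hσ2, encodek] at h2
      cases h2
      exact hσ
  · rintro ⟨E, ⟨τ, hτ, hτE⟩, hE⟩
    obtain ⟨p0, hp0⟩ := enumSpace.surj AA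
    have hp0' : AA = {k | ∃ n, p0 n = k + 1} := hp0
    let p : ℕ → ℕ := fun i => if h : i < τ.length then τ[i] else p0 (i - τ.length)
    have hp : enumSpace.Name p AA := by
      show AA = {k | ∃ n, p n = k + 1}
      ext k
      constructor
      · intro hk
        rw [hp0'] at hk
        obtain ⟨n, hn⟩ := hk
        refine ⟨n + τ.length, ?_⟩
        simp only [p]
        rw [dif_neg (by omega), Nat.add_sub_cancel]
        exact hn
      · rintro ⟨n, hn⟩
        simp only [p] at hn
        split_ifs at hn with h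
        · rcases hτE _ (List.getElem_mem h) with h1 | ⟨σ, hσ, h1⟩
          · omega
          · have h2 : k = encode σ := by omega
            rw [h2]
            exact mem_AA.2 (hE σ hσ)
        · rw [hp0']
          exact ⟨_, hn⟩
    have hseg : initSeg p τ.length = τ := by
      unfold initSeg
      apply List.ext_getElem
      · simp
      · intro i h1 h2
        simp [p, h2]
    obtain ⟨q, hq, hqf⟩ := hname p hp
    have hqf' : q = f := hqf
    subst hqf'
    exact (hF p q hq n v).2 ⟨τ.length, by rw [hseg]; exact hτ⟩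

/-! ### The functional -/

/-- The functional, as a continuous map. -/
noncomputable def PhiC : C(ℕ → ℕ, ℕ) where
  toFun := Phi
  continuous_toFun := by
    rw [continuous_iff_continuousAt]
    intro g
    obtain ⟨k, hk⟩ := Phi_local g
    have h1 : ∀ i ∈ Finset.range k, ∀ᶠ h in nhds g, h i = g i := by
      intro i _
      have h2 : {x : ℕ | x = g i} ∈ nhds (g i) := (isOpen_discrete _).mem_nhds rfl
      exact (continuous_apply i).continuousAt.preimage_mem_nhds h2
    have h3 : ∀ᶠ h in nhds g, ∀ i ∈ Finset.range k, h i = g i :=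
      (Filter.eventually_all_finset _).2 h1
    have h4 : ∀ᶠ h in nhds g, Phi g = Phi h := by
      filter_upwards [h3] with h hh
      exact (hk h fun i hi => hh i (Finset.mem_range.2 hi)).symm
    exact tendsto_const_nhds.congr' h4

theorem PhiC_apply (g : ℕ → ℕ) : PhiC g = Phi g := rfl

/-- The value of the associate computed from the enumeration `τ` at the sequence `σ`, looking at the
prefixes of `σ` of length less than `j`. -/
noncomputable def av (τ σ : List ℕ) : ℕ → ℕ
  | 0 => 0
  | j + 1 => if encode (σ.take j) + 1 ∈ τ then cnt (σ.take j) + 1 else av τ σ j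

theorem av_spec (τ σ : List ℕ) (j : ℕ) : (av τ σ j ≠ 0 ↔ ∃ i < j, encode (σ.take i) + 1 ∈ τ) ∧
    (av τ σ j ≠ 0 → ∃ i < j, encode (σ.take i) + 1 ∈ τ ∧ av τ σ j = cnt (σ.take i) + 1) := by
  induction j with
  | zero => simp [av]
  | succ j ih =>
    by_cases h : encode (σ.take j) + 1 ∈ τ
    · have h1 : av τ σ (j + 1) = cnt (σ.take j) + 1 := by
        show (if encode (σ.take j) + 1 ∈ τ then cnt (σ.take j) + 1 else av τ σ j) = _
        rw [if_pos h]
      rw [h1]
      exact ⟨⟨fun _ => ⟨j, by omega, h⟩, fun _ => by omega⟩, fun _ => ⟨j, by omega, h, rfl⟩⟩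
    · have h1 : av τ σ (j + 1) = av τ σ j := by
        show (if encode (σ.take j) + 1 ∈ τ then cnt (σ.take j) + 1 else av τ σ j) = _
        rw [if_neg h]
      rw [h1]
      constructor
      · rw [ih.1]
        constructor
        · rintro ⟨i, hi, h2⟩
          exact ⟨i, by omega, h2⟩
        · rintro ⟨i, hi, h2⟩
          rcases Nat.lt_succ_iff_lt_or_eq.1 hi with h3 | rfl
          · exact ⟨i, h3, h2⟩
          · exact absurd h2 h
      · intro h2
        obtain ⟨i, hi, h3⟩ := ih.2 h2
        exact ⟨i, by omega, h3⟩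

theorem av_comp : Computable fun x : List ℕ × List ℕ => av x.1 x.2 (x.2.length + 1) := by
  have htake : Computable fun x : List ℕ × ℕ => x.1.take x.2 :=
    Primrec.list_take.to_comp.comp Computable.snd Computable.fst
  have ht : Computable fun y : (List ℕ × List ℕ) × (ℕ × ℕ) => y.1.2.take y.2.1 :=
    htake.comp (g := fun y : (List ℕ × List ℕ) × (ℕ × ℕ) => (y.1.2, y.2.1)) (by fun_prop)
  have h := Computable.nat_rec (f := fun x : List ℕ × List ℕ => x.2.length + 1)
    (g := fun _ => (0 : ℕ))
    (h := fun (x : List ℕ × List ℕ) (q : ℕ × ℕ) =>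
      if encode (x.2.take q.1) + 1 ∈ x.1 then cnt (x.2.take q.1) + 1 else q.2)
    (by fun_prop) (by fun_prop) (by
      unfold Computable₂
      refine cite (p := fun y : (List ℕ × List ℕ) × (ℕ × ℕ) =>
        encode (y.1.2.take y.2.1) + 1 ∈ y.1.1) ?_ ?_ (by fun_prop)
      · exact cp_mem (f := fun y : (List ℕ × List ℕ) × (ℕ × ℕ) =>
          encode (y.1.2.take y.2.1) + 1) (l := fun y => y.1.1) (cadd (cencode ht) (by fun_prop))
          (by fun_prop)
      · exact cadd (cnt_comp.comp ht) (by fun_prop))
  refine h.of_eq fun x => ?_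
  generalize x.2.length + 1 = n
  induction n with
  | zero => rfl
  | succ n ih =>
    show (if encode (x.2.take n) + 1 ∈ x.1 then cnt (x.2.take n) + 1 else
      (Nat.rec (motive := fun _ => ℕ) 0 (fun j acc =>
        if encode (x.2.take j) + 1 ∈ x.1 then cnt (x.2.take j) + 1 else acc) n : ℕ)) =
      (if encode (x.2.take n) + 1 ∈ x.1 then cnt (x.2.take n) + 1 else av x.1 x.2 n)
    rw [← ih]

/-- The sequence coded by `n`. -/
def sq (n : ℕ) : List ℕ := gd [] n

/-- The associate computed from the enumeration `p`. -/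
noncomputable def asc (p : ℕ → ℕ) (n : ℕ) : ℕ :=
  av (initSeg p (sq n).length) (sq n) ((sq n).length + 1)

theorem phi_le : LeT enumSpace functionals PhiC AA := by
  refine ⟨fun p => Part.some (asc p), ⟨fun x => x.1.length = (sq x.2.1).length ∧
    x.2.2 = av x.1 (sq x.2.1) ((sq x.2.1).length + 1), ?_, ?_⟩, ?_⟩
  · have hsq : Computable fun x : List ℕ × (ℕ × ℕ) => sq x.2.1 := by
      unfold sq
      fun_prop
    refine RE.and (RE.eq (by fun_prop) (clength hsq)) (RE.eq (by fun_prop) ?_)
    exact av_comp.comp (g := fun x : List ℕ × (ℕ × ℕ) => (x.1, sq x.2.1))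
      (Computable.pair (by fun_prop) hsq)
  · intro p q hq n m
    have hq' : q = asc p := Part.mem_some_iff.1 hq
    subst hq'
    constructor
    · intro h
      exact ⟨(sq n).length, seg_length _ _, h.symm⟩
    · rintro ⟨k, h1, h2⟩
      have h1' : (seg p k).length = (sq n).length := h1
      rw [seg_length] at h1'
      have h2' : m = av (initSeg p k) (sq n) ((sq n).length + 1) := h2
      rw [h2', h1']
      rfl
  · intro p hp
    refine ⟨asc p, Part.mem_some _, ?_⟩
    have hp' : AA = {k | ∃ n, p n = k + 1} := hp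
    have hasc : ∀ (g : ℕ → ℕ) (k : ℕ), asc p (encode (initSeg g k)) =
        av (initSeg p k) (initSeg g k) (k + 1) := by
      intro g k
      unfold asc sq
      rw [gd_encode, show (initSeg g k).length = k from seg_length g k]
    have hval : ∀ (g : ℕ → ℕ) (k : ℕ), asc p (encode (initSeg g k)) ≠ 0 →
        asc p (encode (initSeg g k)) = Phi g + 1 := by
      intro g k h
      rw [hasc] at h ⊢
      obtain ⟨i, hi, h1, h2⟩ := (av_spec _ _ _).2 h
      rw [h2]
      have h3 : (initSeg g k).take i = seg g i := seg_take g (by omega)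
      rw [h3] at h1 ⊢
      have h4 : seg g i ∈ VV := by
        rw [← mem_AA, hp']
        obtain ⟨n, -, hn⟩ := List.mem_map.1 h1
        exact ⟨n, hn⟩
      rw [cnt_seg, Phi_eq (VV_disj _ h4)]
    have hex : ∀ g : ℕ → ℕ, ∃ k, asc p (encode (initSeg g k)) ≠ 0 := by
      intro g
      obtain ⟨k, hk⟩ := VV_bar g
      have h1 : encode (seg g k) ∈ AA := mem_AA.2 hk
      rw [hp'] at h1
      obtain ⟨i, hi⟩ := h1
      refine ⟨max k (i + 1), ?_⟩
      rw [hasc, (av_spec _ _ _).1]
      refine ⟨k, by have := le_max_left k (i + 1); omega, ?_⟩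
      have h3 : (initSeg g (max k (i + 1))).take k = seg g k := seg_take g (le_max_left _ _)
      rw [h3, ← hi]
      exact List.mem_map.2 ⟨i, List.mem_range.2 (by
        have := le_max_right k (i + 1); omega), rfl⟩
    intro g
    classical
    refine ⟨Nat.find (hex g), hval g _ (Nat.find_spec (hex g)), fun j hj => ?_⟩
    have := Nat.find_min (hex g) hj
    push Not at this
    exact this

theorem phi_not_comp : ¬ IsComputablePoint functionals PhiC := by
  rintro ⟨α, hα, hass⟩
  have hass' : IsAssociate α PhiC := hass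
  have hB : REPred fun σ : List ℕ => σ ∈ {σ : List ℕ | α (encode σ) ≠ 0 ∧
      ∀ j < σ.length, α (encode (σ.take j)) = 0} := by
    have htake : Computable fun x : List ℕ × ℕ => x.1.take x.2 :=
      Primrec.list_take.to_comp.comp Computable.snd Computable.fst
    refine RE.and (RE.ne (hα.comp (by fun_prop)) (by fun_prop)) ?_
    refine RE.all_lt (p := fun (σ : List ℕ) j => α (encode (σ.take j)) = 0)
      (RE.eq (hα.comp (cencode htake)) (by fun_prop)) (by fun_prop)
  obtain ⟨σ, ⟨hσ1, hσ2⟩, hσS⟩ := bar_meets hB fun g => by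
    obtain ⟨k, h1, h2⟩ := hass' g
    refine ⟨k, ?_, fun j hj => ?_⟩
    · show α (encode (initSeg g k)) ≠ 0
      omega
    · rw [seg_length] at hj
      rw [seg_take g hj.le]
      exact h2 j hj
  obtain ⟨g, h, hg, hh, hne⟩ := Phi_not_const hσS
  have key : ∀ g : ℕ → ℕ, seg g σ.length = σ → Phi g + 1 = α (encode σ) := by
    intro g hg
    obtain ⟨k, h1, h2⟩ := hass' g
    rw [PhiC_apply] at h1
    rcases lt_trichotomy k σ.length with hlt | heq | hgt
    · exfalso
      have h3 := hσ2 k hlt
      rw [← hg, seg_take g hlt.le] at h3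
      rw [show initSeg g k = seg g k from rfl, h3] at h1
      omega
    · rw [heq, show initSeg g σ.length = seg g σ.length from rfl, hg] at h1
      exact h1.symm
    · exfalso
      have h3 := h2 _ hgt
      rw [show initSeg g σ.length = seg g σ.length from rfl, hg] at h3
      exact hσ1 h3
  have h1 := key g hg
  have h2 := key h hh
  exact hne (by omega)

/-- There is a set `A` whose enumeration degree is quasi-minimal (that is, quasi-minimal with
respect to Baire space) but not quasi-minimal with respect to the space of the continuous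
functionals on Baire space. -/
theorem result : ∃ A : Set ℕ, QuasiMinimalFor baire A ∧ ¬ QuasiMinimalFor functionals A := by
  refine ⟨AA, ⟨not_ce, fun f hf => ⟨f, functions_computable f hf, rfl⟩⟩, fun h => ?_⟩
  exact phi_not_comp (h.2 PhiC phi_le)

end Pool.Agent.Results.MP_9a65c4_lc.QuasiMinimal
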